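import Pool.Agent.H21.ASY.Stmts2
import Pool.Agent.H36.ASY.SUM

/-!
# ASY: row SUT, the majorant with a parameter (port of SUM)
-/

set_option autoImplicit false

namespace Pool.ASY

open Finset MeasureTheory Pool.Agent.H98.ABCR Pool.SHA
open scoped ArithmeticFunction.Moebius

/-- The majorant with a parameter. -/
noncomputable def sut_F (θ : ℝ) (d : ℕ) : ℝ :=
  if Sqf d then 6 ^ om d * (exc d : ℝ) ^ (2 / 3 + θ / 3 : ℝ) / d else 0

theorem sut_F_zero (θ : ℝ) : sut_F θ 0 = 0 := by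
  unfold sut_F
  rw [if_neg]
  rintro ⟨h, _⟩
  exact absurd h (lt_irrefl 0)

theorem sut_F_one (hE : S_EXC) (θ : ℝ) : sut_F θ 1 = 1 := by
  have h1 : exc 1 = 1 := by
    have h2 := (hE.1 1 Nat.one_pos).1
    exact Nat.eq_one_of_mul_eq_one_left h2.symm
  have h3 : om 1 = 0 := by
    unfold om
    rw [Nat.primeFactors_one, Finset.card_empty]
  unfold sut_F
  rw [if_pos sum_sqf_one, h1, h3, Nat.cast_one, Real.one_rpow]
  norm_num

theorem sut_F_nonneg (θ : ℝ) (n : ℕ) : 0 ≤ sut_F θ n := by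
  unfold sut_F
  split_ifs
  · positivity
  · exact le_refl _

theorem sut_F_mul (hE : S_EXC) (θ : ℝ) (m n : ℕ) (h : m.Coprime n) :
    sut_F θ (m * n) = sut_F θ m * sut_F θ n := by
  rcases Nat.eq_zero_or_pos m with rfl | hm
  · have h1 : n = 1 := (Nat.coprime_zero_left n).mp h
    rw [h1, mul_one, sut_F_one hE, mul_one]
  rcases Nat.eq_zero_or_pos n with rfl | hn
  · have h1 : m = 1 := (Nat.coprime_zero_right m).mp h
    rw [h1, one_mul, sut_F_one hE, one_mul]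
  unfold sut_F
  by_cases h1 : Sqf m
  · by_cases h2 : Sqf n
    · rw [if_pos ((sum_sqf_mul hm hn h).mpr ⟨h1, h2⟩), if_pos h1, if_pos h2]
      have h3 : om (m * n) = om m + om n := by
        unfold om
        rw [h.primeFactors_mul, Finset.card_union_of_disjoint h.disjoint_primeFactors]
      have hm0 : (m : ℝ) ≠ 0 := by exact_mod_cast hm.ne'
      have hn0 : (n : ℝ) ≠ 0 := by exact_mod_cast hn.ne'
      rw [h3, hE.2.2.1 m n h, pow_add, Nat.cast_mul, Nat.cast_mul,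
        Real.mul_rpow (Nat.cast_nonneg _) (Nat.cast_nonneg _)]
      field_simp
    · rw [if_neg (fun hh => h2 ((sum_sqf_mul hm hn h).mp hh).2), if_neg h2, mul_zero]
  · rw [if_neg (fun hh => h1 ((sum_sqf_mul hm hn h).mp hh).1), if_neg h1, zero_mul]

theorem sut_F_p (θ : ℝ) {p : ℕ} (hp : p.Prime) : sut_F θ (p ^ (0 + 1)) = 0 := by
  unfold sut_F
  rw [if_neg]
  rintro ⟨_, h⟩
  have h1 := h p hp (dvd_pow_self p (by norm_num))
  have h2 := (Nat.pow_dvd_pow_iff_le_right hp.one_lt).mp h1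
  omega

theorem sut_F_pp (hE : S_EXC) (θ : ℝ) {p : ℕ} (hp : p.Prime) (e : ℕ) :
    sut_F θ (p ^ (e + 1 + 1)) =
      6 * ((p : ℝ) ^ (-((4 - θ) / 3) : ℝ) * ((p : ℝ) ^ (-((1 - θ) / 3) : ℝ)) ^ e) := by
  have hp0 : (0 : ℝ) < p := by exact_mod_cast hp.pos
  have h1 : Sqf (p ^ (e + 1 + 1)) := by
    refine ⟨pow_pos hp.pos _, ?_⟩
    intro q hq hqp
    have h2 : q = p := (Nat.prime_dvd_prime_iff_eq hq hp).mp (hq.dvd_of_dvd_pow hqp)
    rw [h2]
    exact pow_dvd_pow p (by omega)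
  have h3 : om (p ^ (e + 1 + 1)) = 1 := by
    unfold om
    rw [Nat.primeFactors_prime_pow (by omega) hp, Finset.card_singleton]
  unfold sut_F
  rw [if_pos h1, h3, hE.2.2.2.1 p (e + 1) hp, pow_one, Nat.cast_pow, Nat.cast_pow,
    ← Real.rpow_natCast (p : ℝ) (e + 1), ← Real.rpow_natCast (p : ℝ) (e + 1 + 1),
    ← Real.rpow_mul hp0.le, mul_div_assoc, ← Real.rpow_sub hp0,
    ← Real.rpow_natCast _ e, ← Real.rpow_mul hp0.le, ← Real.rpow_add hp0]
  refine congrArg (fun t : ℝ => 6 * (p : ℝ) ^ t) ?_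
  push_cast
  ring

theorem sut_summable (hE : S_EXC) (hM : S_MUL) {θ : ℝ} (hθ1 : θ < 1) : Summable (sut_F θ) := by
  set r : ℝ := (2 : ℝ) ^ (-((1 - θ) / 3) : ℝ) with hr
  have hr0 : 0 < r := Real.rpow_pos_of_pos (by norm_num) _
  have hr1 : r < 1 := Real.rpow_lt_one_of_one_lt_of_neg (by norm_num) (by linarith)
  have hbd : ∀ p : ℕ, p.Prime → ∀ e : ℕ,
      sut_F θ (p ^ (e + 1)) ≤ 6 / r * (p : ℝ) ^ (-((4 - θ) / 3) : ℝ) * r ^ e := by
    intro p hp e
    have hp0 : (0 : ℝ) < p := by exact_mod_cast hp.pos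
    have hpp : 0 < (p : ℝ) ^ (-((4 - θ) / 3) : ℝ) := Real.rpow_pos_of_pos hp0 _
    rcases e with _ | e
    · rw [sut_F_p θ hp]
      positivity
    · rw [sut_F_pp hE θ hp e]
      have h1 : (p : ℝ) ^ (-((1 - θ) / 3) : ℝ) ≤ r :=
        Real.rpow_le_rpow_of_nonpos (by norm_num) (by exact_mod_cast hp.two_le) (by linarith)
      have h2 : ((p : ℝ) ^ (-((1 - θ) / 3) : ℝ)) ^ e ≤ r ^ e :=
        pow_le_pow_left₀ (Real.rpow_pos_of_pos hp0 _).le h1 e
      have h3 : 6 / r * (p : ℝ) ^ (-((4 - θ) / 3) : ℝ) * r ^ (e + 1) =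
          6 * ((p : ℝ) ^ (-((4 - θ) / 3) : ℝ) * r ^ e) := by
        rw [pow_succ]
        field_simp
      rw [h3]
      exact mul_le_mul_of_nonneg_left (mul_le_mul_of_nonneg_left h2 hpp.le) (by norm_num)
  have hgs : ∀ p : ℕ, Summable fun e : ℕ => 6 / r * (p : ℝ) ^ (-((4 - θ) / 3) : ℝ) * r ^ e :=
    fun p => (summable_geometric_of_lt_one hr0.le hr1).mul_left _
  have hs : ∀ p : ℕ, p.Prime → Summable fun e : ℕ => sut_F θ (p ^ (e + 1)) := by
    intro p hp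
    exact Summable.of_nonneg_of_le (fun e => sut_F_nonneg _ _) (hbd p hp) (hgs p)
  have hz : Summable fun n : ℕ => (n : ℝ) ^ (-((4 - θ) / 3) : ℝ) :=
    Real.summable_nat_rpow.mpr (by linarith)
  refine hM (sut_F θ) (6 / r * (1 - r)⁻¹ * ∑' n : ℕ, (n : ℝ) ^ (-((4 - θ) / 3) : ℝ))
    (sut_F_nonneg θ) (sut_F_zero θ) (sut_F_one hE θ) (sut_F_mul hE θ) hs ?_
  intro N
  have h1 : ∀ p ∈ N.primesBelow, ∑' e : ℕ, sut_F θ (p ^ (e + 1)) ≤
      6 / r * (1 - r)⁻¹ * (p : ℝ) ^ (-((4 - θ) / 3) : ℝ) := by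
    intro p hp
    have hpp : p.Prime := Nat.prime_of_mem_primesBelow hp
    refine (Summable.tsum_le_tsum (hbd p hpp) (hs p hpp) (hgs p)).trans (le_of_eq ?_)
    rw [tsum_mul_left, tsum_geometric_of_lt_one hr0.le hr1]
    ring
  refine (Finset.sum_le_sum h1).trans ?_
  rw [← Finset.mul_sum]
  refine mul_le_mul_of_nonneg_left ?_ ?_
  · exact Summable.sum_le_tsum _ (fun n _ => Real.rpow_nonneg (Nat.cast_nonneg n) _) hz
  · have h4 : 0 < 1 - r := sub_pos.mpr hr1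
    positivity

/-- ROW SUT -/
theorem sut_thm (hM : S_MUL) (hE : S_EXC) : S_SUT := by
  intro θ _ hθ1
  have hS := sut_summable hE hM hθ1
  refine ⟨max 1 (∑' d, sut_F θ d), le_max_left _ _, fun S h => ?_⟩
  refine le_trans (le_of_eq ?_) ((hS.sum_le_tsum S fun d _ => sut_F_nonneg θ d).trans
    (le_max_right _ _))
  refine Finset.sum_congr rfl fun d hd => ?_
  unfold sut_F
  rw [if_pos (h d hd)]

end Pool.ASY
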