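import Pool.Agent.H21.ASY.Stmts

/-!
Row TAI of the board `asy`.
-/

set_option autoImplicit false

namespace Pool.ASY

open Finset MeasureTheory Pool.Agent.H98.ABCR Pool.SHA

theorem FF_nonneg78 (d : ℕ) : 0 ≤ FF d := by
  unfold FF
  split_ifs
  · positivity
  · exact le_refl _

theorem tai_term {d : ℕ} (hd : Sqf d) :
    6 ^ om d * (exc d : ℝ) ^ (2 / 3 + 1 / 24 : ℝ) / d = FF d * (d : ℝ) ^ (-(1 / 24) : ℝ) := by
  have hd0 : (0 : ℝ) < d := by exact_mod_cast hd.1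
  unfold FF
  rw [if_pos hd]
  have h1 : (d : ℝ) ^ (-(1 - 1 / 24) : ℝ) * (d : ℝ) ^ (-(1 / 24) : ℝ) = 1 / (d : ℝ) := by
    rw [← Real.rpow_add hd0]
    have : (-(1 - 1 / 24) + -(1 / 24) : ℝ) = -1 := by norm_num
    rw [this, Real.rpow_neg_one, one_div]
  rw [mul_assoc (6 ^ om d * (exc d : ℝ) ^ (2 / 3 + 1 / 24 : ℝ)), h1, mul_one_div]

/-- ROW TAI -/
theorem tai_thm (h1 : S_SUM) : S_TAI := by
  have hS : Summable FF := h1
  have hsum : ∀ S : Finset ℕ, ∑ d ∈ S, FF d ≤ ∑' d, FF d := fun S =>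
    hS.sum_le_tsum S fun d _ => FF_nonneg78 d
  refine ⟨max 1 (∑' d, FF d), le_max_left _ _, fun S h => ?_, fun Y S hY h => ?_⟩
  · refine le_trans (sum_le_sum fun d hd => ?_) ((hsum S).trans (le_max_right _ _))
    rw [tai_term (h d hd)]
    have hd1 : (1 : ℝ) ≤ d := by exact_mod_cast (h d hd).1
    have h2 : (d : ℝ) ^ (-(1 / 24) : ℝ) ≤ 1 :=
      Real.rpow_le_one_of_one_le_of_nonpos hd1 (by norm_num)
    exact mul_le_of_le_one_right (FF_nonneg78 d) h2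
  · have hY0 : (0 : ℝ) < Y := by linarith
    calc ∑ d ∈ S, 6 ^ om d * (exc d : ℝ) ^ (2 / 3 + 1 / 24 : ℝ) / d
        ≤ ∑ d ∈ S, FF d * Y ^ (-(1 / 24) : ℝ) := by
          refine sum_le_sum fun d hd => ?_
          rw [tai_term (h d hd).1]
          refine mul_le_mul_of_nonneg_left ?_ (FF_nonneg78 d)
          exact Real.rpow_le_rpow_of_nonpos hY0 (h d hd).2.le (by norm_num)
      _ = (∑ d ∈ S, FF d) * Y ^ (-(1 / 24) : ℝ) := by rw [sum_mul]
      _ ≤ max 1 (∑' d, FF d) * Y ^ (-(1 / 24) : ℝ) :=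
          mul_le_mul_of_nonneg_right ((hsum S).trans (le_max_right _ _))
            (Real.rpow_nonneg hY0.le _)

end Pool.ASY
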